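import Pool.Agent.V1198.BLQuot

/-!
# Semiprojectivity of Banach lattices is not an extension property

`ℝ` and `ℓ_1` are semiprojective, but `ℝ ⊕_∞ ℓ_1` is not: let `X_0` be the lattice of pairs
`(α, β)`, `α` convergent, `β` null, with norm `sup_k (|α_k| + |β_k|)`, let `I_n` be the ideal of the
pairs `(α, 0)` with `α` supported in `[0, n)`; then `closure (⋃ I_n)` is the ideal of the pairs
`(α, 0)` with `lim α = 0`, with quotient the space `Y` of pairs `(c, β)`, and the inclusion of
`ℝ ⊕_∞ ℓ_1` into `Y` has no lift to `X_0 / I_n` of norm at most `3/2`, for any `n`.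
-/

set_option autoImplicit false

noncomputable section

open Filter Topology Pool.Agent.V1198.BL

namespace Pool.Agent.Results.MP_1502ad_an.Extension

/-- The quotient map `X_0 → X_n`. -/
def qMap (n : ℕ) : latX 0 →L[ℝ] latX n :=
  LinearMap.mkContinuous
    { toFun := fun x => (⟨fun j => Sum.elim (fun k => (show Sp (specX 0) from x) (Sum.inl (k + n)))
          (fun k => (show Sp (specX 0) from x) (Sum.inr k)) j,
        ⟨⟨lim (show Sp (specX 0) from x), (tendsto_add_atTop_iff_nat n).mpr
          (lim_spec (show Sp (specX 0) from x))⟩, x.2.2⟩⟩ : Sp (specX n))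
      map_add' := fun x y => Sp.ext fun j => by rcases j with k | k <;> rfl
      map_smul' := fun c x => Sp.ext fun j => by rcases j with k | k <;> rfl } 1 fun x => by
      rw [one_mul]
      refine X_norm_le (fun k => ?_) fun k => ?_
      · exact X_pair_le (n := 0) (show Sp (specX 0) from x) (k + n)
      · exact Sp.apply_le (P := specX 0) x _

theorem qMap_inl (n : ℕ) (x : Sp (specX 0)) (k : ℕ) :
    (show Sp (specX n) from qMap n x) (Sum.inl k) = x (Sum.inl (k + n)) := rfl

theorem qMap_inr (n : ℕ) (x : Sp (specX 0)) (k : ℕ) :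
    (show Sp (specX n) from qMap n x) (Sum.inr k) = x (Sum.inr k) := rfl

theorem qMap_isQuot (n : ℕ) : IsQuot (qMap n) := by
  refine isQuot_of (fun x => ?_) (fun x => ?_) fun y ε hε => ?_
  · refine Sp.ext (P := specX n) fun j => ?_
    rcases j with k | k <;> rfl
  · refine X_norm_le (fun k => ?_) fun k => ?_
    · exact X_pair_le (n := 0) (show Sp (specX 0) from x) (k + n)
    · exact Sp.apply_le (P := specX 0) x _
  · set y' : Sp (specX n) := y with hy'
    have hlim : Tendsto (fun k => if k < n then (0 : ℝ) else y' (Sum.inl (k - n))) atTop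
        (𝓝 (lim y')) := by
      rw [← tendsto_add_atTop_iff_nat n]
      refine (lim_spec y').congr fun k => ?_
      rw [if_neg (by omega), Nat.add_sub_cancel]
    have hmem : (fun j : ℕ ⊕ ℕ => Sum.elim
        (fun k => if k < n then (0 : ℝ) else y' (Sum.inl (k - n)))
        (fun k => y' (Sum.inr k)) j) ∈ (specX 0).S := ⟨⟨_, hlim⟩, y'.2.2⟩
    refine ⟨⟨_, hmem⟩, ?_, ?_⟩
    · refine Sp.ext (P := specX n) fun j => ?_
      rcases j with k | k
      · change (if k + n < n then (0 : ℝ) else y' (Sum.inl (k + n - n))) = y' (Sum.inl k)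
        rw [if_neg (by omega), Nat.add_sub_cancel]
      · rfl
    · have hle : ‖y'‖ ≤ ‖y‖ + ε := le_add_of_nonneg_right hε.le
      refine (X_norm_le (fun k => ?_) fun k => ?_).trans hle
      · change |if k < n then (0 : ℝ) else y' (Sum.inl (k - n))| + |y' (Sum.inr (k + 0))| ≤ _
        split_ifs with hk
        · rw [abs_zero, zero_add]
          exact Sp.apply_le y' _
        · have h1 := X_pair_le y' (k - n)
          rw [Nat.sub_add_cancel (by omega)] at h1
          exact h1
      · exact Sp.apply_le y' _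

theorem pMap_qMap (n : ℕ) : (pMap n).comp (qMap n) = pMap 0 := by
  refine ContinuousLinearMap.ext fun x => Sp.ext (P := specY) fun j => ?_
  rcases j with _ | k
  · refine tendsto_nhds_unique (lim_spec (show Sp (specX n) from qMap n x)) ?_
    exact (tendsto_add_atTop_iff_nat n).mpr (lim_spec (show Sp (specX 0) from x))
  · rfl

theorem ker_mono (n : ℕ) (x : latX 0) (h : qMap n x = 0) : qMap (n + 1) x = 0 := by
  refine Sp.ext (P := specX (n + 1)) fun j => ?_
  rcases j with k | k
  · have h1 := congrArg (fun y : Sp (specX n) => y (Sum.inl (k + 1))) h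
    have h2 : (show Sp (specX 0) from x) (Sum.inl (k + 1 + n)) = 0 := h1
    change (show Sp (specX 0) from x) (Sum.inl (k + (n + 1))) = 0
    have e : k + (n + 1) = k + 1 + n := by ring
    rw [e]
    exact h2
  · have h1 : (show Sp (specX 0) from x) (Sum.inr k) = 0 :=
      congrArg (fun y : Sp (specX n) => y (Sum.inr k)) h
    exact h1

/-- Truncation of the first component. -/
def trunc (x : Sp (specX 0)) (m : ℕ) : Sp (specX 0) :=
  ⟨fun j => Sum.elim (fun k => if k < m then x (Sum.inl k) else 0)
    (fun k => x (Sum.inr k)) j, ⟨⟨0, by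
      refine tendsto_const_nhds.congr' ?_
      filter_upwards [eventually_ge_atTop m] with k hk
      rw [Sum.elim_inl, if_neg (not_lt.mpr hk)]⟩, x.2.2⟩⟩

theorem ker_closure : {x | pMap 0 x = 0} = closure (⋃ n, {x | qMap n x = 0}) := by
  refine Set.Subset.antisymm (fun x hx => ?_) (closure_minimal ?_ ?_)
  · set x' : Sp (specX 0) := x with hx'
    have h0 : pMap 0 x' = 0 := hx
    have hl : lim x' = 0 := congrArg (fun y : Sp specY => y none) h0
    have hr : ∀ k, x' (Sum.inr k) = 0 := fun k => congrArg (fun y : Sp specY => y (some k)) h0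
    have hlim := lim_spec x'
    rw [hl] at hlim
    rw [Metric.mem_closure_iff]
    intro ε hε
    obtain ⟨m, hm⟩ := Metric.tendsto_atTop.mp hlim (ε / 2) (by positivity)
    refine ⟨(trunc x' m : Sp (specX 0)), Set.mem_iUnion.mpr ⟨m, ?_⟩, ?_⟩
    · refine Sp.ext (P := specX m) fun j => ?_
      rcases j with k | k
      · change (if k + m < m then x' (Sum.inl (k + m)) else 0) = 0
        rw [if_neg (by omega)]
      · exact hr k
    · have h1 : ‖x' - trunc x' m‖ ≤ ε / 2 := by
        refine X_norm_le (fun k => ?_) fun k => ?_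
        · rw [Sp.sub_apply, Sp.sub_apply]
          change |x' (Sum.inl k) - if k < m then x' (Sum.inl k) else 0| +
            |x' (Sum.inr (k + 0)) - x' (Sum.inr (k + 0))| ≤ _
          rw [sub_self, abs_zero, add_zero]
          split_ifs with hk
          · rw [sub_self, abs_zero]; positivity
          · have h2 := hm k (by omega)
            rw [Real.dist_eq, sub_zero] at h2
            rw [sub_zero]
            exact h2.le
        · rw [Sp.sub_apply]
          change |x' (Sum.inr k) - x' (Sum.inr k)| ≤ _
          rw [sub_self, abs_zero]; positivity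
      rw [dist_eq_norm]
      exact h1.trans_lt (by linarith)
  · refine Set.iUnion_subset fun n x hx => ?_
    change pMap 0 x = 0
    have h1 : qMap n x = 0 := hx
    rw [← pMap_qMap n, ContinuousLinearMap.comp_apply, h1, map_zero]
  · exact isClosed_eq (pMap 0).continuous continuous_const

/-- The unit vectors of `X_0`. -/
def unitX (j : ℕ ⊕ ℕ) : Sp (specX 0) :=
  ⟨Pi.single j 1, ⟨⟨0, by
      refine tendsto_const_nhds.congr' ?_
      rcases j with m | m
      · filter_upwards [eventually_gt_atTop m] with k hk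
        rw [Pi.single_eq_of_ne]
        exact fun h => by rw [Sum.inl.injEq] at h; omega
      · refine Eventually.of_forall fun k => ?_
        change (0 : ℝ) = (Pi.single (Sum.inr m) (1 : ℝ) : ℕ ⊕ ℕ → ℝ) (Sum.inl k)
        rw [Pi.single_eq_of_ne Sum.inl_ne_inr]⟩, by
      refine tendsto_const_nhds.congr' ?_
      rcases j with m | m
      · refine Eventually.of_forall fun k => ?_
        change (0 : ℝ) = (Pi.single (Sum.inl m) (1 : ℝ) : ℕ ⊕ ℕ → ℝ) (Sum.inr k)
        rw [Pi.single_eq_of_ne Sum.inr_ne_inl]
      · filter_upwards [eventually_gt_atTop m] with k hk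
        rw [Pi.single_eq_of_ne]
        exact fun h => by rw [Sum.inr.injEq] at h; omega⟩⟩

/-- The constant sequence in the first component. -/
def oneX : Sp (specX 0) :=
  ⟨fun j => Sum.elim (fun _ => 1) (fun _ => 0) j, ⟨⟨1, tendsto_const_nhds⟩, tendsto_const_nhds⟩⟩

theorem separable : TopologicalSpace.SeparableSpace (latX 0) := by
  rw [← TopologicalSpace.isSeparable_univ_iff]
  have hc : (Set.insert oneX (Set.range unitX)).Countable :=
    (Set.countable_range _).insert _
  have hs : TopologicalSpace.IsSeparable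
      (closure (Submodule.span ℝ (Set.insert oneX (Set.range unitX)) : Set (Sp (specX 0)))) :=
    (TopologicalSpace.IsSeparable.span hc.isSeparable).closure
  refine hs.mono fun x _ => ?_
  set x' : Sp (specX 0) := x with hx'
  rw [Metric.mem_closure_iff]
  intro ε hε
  obtain ⟨m₁, hm₁⟩ := Metric.tendsto_atTop.mp (lim_spec x') (ε / 4) (by positivity)
  obtain ⟨m₂, hm₂⟩ := Metric.tendsto_atTop.mp x'.2.2 (ε / 4) (by positivity)
  set m := max m₁ m₂ with hm
  set z : Sp (specX 0) := lim x' • oneX +
    (∑ k ∈ Finset.range m, (x' (Sum.inl k) - lim x') • unitX (Sum.inl k) +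
      ∑ k ∈ Finset.range m, x' (Sum.inr k) • unitX (Sum.inr k)) with hz
  have hsumapp : ∀ (F : Finset ℕ) (g : ℕ → Sp (specX 0)) (j : ℕ ⊕ ℕ),
      (∑ k ∈ F, g k) j = ∑ k ∈ F, (g k) j := by
    intro F g j
    classical
    induction F using Finset.induction_on with
    | empty => simp
    | insert a F ha ih => rw [Finset.sum_insert ha, Finset.sum_insert ha, Sp.add_apply, ih]
  have hunit : ∀ i j : ℕ ⊕ ℕ, (unitX i) j = if j = i then 1 else 0 := fun i j => by
    change (Pi.single i 1 : ℕ ⊕ ℕ → ℝ) j = _
    rw [Pi.single_apply]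
  have hzl : ∀ k, x' (Sum.inl k) - z (Sum.inl k) =
      if k < m then 0 else x' (Sum.inl k) - lim x' := by
    intro k
    have h1 : z (Sum.inl k) = lim x' * 1 +
        ((∑ i ∈ Finset.range m, (x' (Sum.inl i) - lim x') * (if (Sum.inl k : ℕ ⊕ ℕ) = Sum.inl i
          then 1 else 0)) + ∑ i ∈ Finset.range m, x' (Sum.inr i) *
            (if (Sum.inl k : ℕ ⊕ ℕ) = Sum.inr i then 1 else 0)) := by
      rw [hz]
      simp only [Sp.add_apply, Sp.smul_apply, hsumapp, hunit]
      rfl
    rw [h1]
    simp only [Sum.inl.injEq, reduceCtorEq, if_false, mul_zero, Finset.sum_const_zero, add_zero,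
      mul_ite, mul_one, Finset.sum_ite_eq, Finset.mem_range]
    split_ifs <;> ring
  have hzr : ∀ k, x' (Sum.inr k) - z (Sum.inr k) = if k < m then 0 else x' (Sum.inr k) := by
    intro k
    have h1 : z (Sum.inr k) = lim x' * 0 +
        ((∑ i ∈ Finset.range m, (x' (Sum.inl i) - lim x') * (if (Sum.inr k : ℕ ⊕ ℕ) = Sum.inl i
          then 1 else 0)) + ∑ i ∈ Finset.range m, x' (Sum.inr i) *
            (if (Sum.inr k : ℕ ⊕ ℕ) = Sum.inr i then 1 else 0)) := by
      rw [hz]
      simp only [Sp.add_apply, Sp.smul_apply, hsumapp, hunit]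
      rfl
    rw [h1]
    simp only [Sum.inr.injEq, reduceCtorEq, if_false, mul_zero, Finset.sum_const_zero, zero_add,
      mul_ite, mul_one, Finset.sum_ite_eq, Finset.mem_range]
    split_ifs <;> ring
  have hbl : ∀ k, |x' (Sum.inl k) - z (Sum.inl k)| ≤ ε / 4 := by
    intro k
    rw [hzl]
    split_ifs with hk
    · rw [abs_zero]; positivity
    · have := hm₁ k (by omega)
      rw [Real.dist_eq] at this
      exact this.le
  have hbr : ∀ k, |x' (Sum.inr k) - z (Sum.inr k)| ≤ ε / 4 := by
    intro k
    rw [hzr]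
    split_ifs with hk
    · rw [abs_zero]; positivity
    · have := hm₂ k (by omega)
      rw [Real.dist_eq, sub_zero] at this
      exact this.le
  refine ⟨z, ?_, ?_⟩
  · refine Submodule.add_mem _ (Submodule.smul_mem _ _ (Submodule.subset_span
      (Set.mem_insert _ _))) (Submodule.add_mem _ ?_ ?_)
    · exact Submodule.sum_mem _ fun k _ => Submodule.smul_mem _ _ (Submodule.subset_span
        (Set.mem_insert_of_mem _ (Set.mem_range_self _)))
    · exact Submodule.sum_mem _ fun k _ => Submodule.smul_mem _ _ (Submodule.subset_span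
        (Set.mem_insert_of_mem _ (Set.mem_range_self _)))
  · have h1 : ‖x' - z‖ ≤ ε / 2 := by
      refine X_norm_le (fun k => ?_) fun k => ?_
      · rw [Sp.sub_apply, Sp.sub_apply]
        have := hbl k
        have := hbr (k + 0)
        linarith
      · rw [Sp.sub_apply]
        have := hbr k
        linarith
    rw [dist_eq_norm]
    exact h1.trans_lt (by linarith)

theorem not_semiprojective : ¬ Semiprojective (prodLat realLat ellOne) := by
  intro h
  obtain ⟨n, hn⟩ := h (latX 0) latX latY qMap (pMap 0) pMap separable qMap_isQuot (pMap_isQuot 0)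
    pMap_qMap ker_mono ker_closure TMap TMap_isLatHom norm_TMap_le
  obtain ⟨ψ, h1, h2, h3⟩ := hn (1 / 2) (by norm_num)
  exact no_lift n ⟨ψ, h1, h2, h3.trans (by norm_num)⟩

/-- The inclusion of `ℝ`. -/
def incl : realLat →L[ℝ] prodLat realLat ellOne := ContinuousLinearMap.inl ℝ ℝ ellOne

/-- The projection to `ℓ_1`. -/
def proj : prodLat realLat ellOne →L[ℝ] ellOne := ContinuousLinearMap.snd ℝ ℝ ellOne

/-- **Result.** There are a Banach lattice `A` with a closed ideal `J` (given by an isometric lattice
homomorphism `i` onto the kernel of a quotient map `q : A → B`) such that `J` and `B = A/J` are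
semiprojective, but `A` is not. -/
theorem result : ∃ (J A B : BLat) (i : J →L[ℝ] A) (q : A →L[ℝ] B), IsLatHom i ∧
    (∀ x, ‖i x‖ = ‖x‖) ∧ Set.range i = {a | q a = 0} ∧ IsQuot q ∧ Semiprojective J ∧
    Semiprojective B ∧ ¬ Semiprojective A := by
  refine ⟨realLat, prodLat realLat ellOne, ellOne, incl, proj, fun t => ?_, fun t => ?_, ?_, ?_,
    real_projective.semiprojective, ellOne_projective.semiprojective, not_semiprojective⟩
  · refine Prod.ext rfl ?_
    change (0 : Sp ellOneSpec) = |0|
    rw [abs_zero]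
  · change max ‖(t : ℝ)‖ ‖(0 : Sp ellOneSpec)‖ = ‖(t : ℝ)‖
    rw [norm_zero, max_eq_left (norm_nonneg _)]
  · ext ⟨t, a⟩
    constructor
    · rintro ⟨s, hs⟩
      exact (congrArg Prod.snd hs).symm
    · intro h
      refine ⟨t, Prod.ext rfl ?_⟩
      exact (show (0 : Sp ellOneSpec) = a from Eq.symm h)
  · refine isQuot_of (fun x => rfl) (fun x => norm_snd_le x) fun y ε hε => ⟨((0 : ℝ), y), rfl, ?_⟩
    change max ‖(0 : ℝ)‖ ‖y‖ ≤ _
    rw [norm_zero, max_eq_right (norm_nonneg _)]
    linarith

end Pool.Agent.Results.MP_1502ad_an.Extension
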